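import Mathlib
import Pool.Agent.X101.Gag

/-!
# MP_498700_an, Q1, negated form for `N = d = 1`, `q = 2`
-/

open MeasureTheory Filter Set Pool.Agent.X101.Gag
open scoped Topology ENNReal ContDiff

namespace Pool.Agent.Results.MP_498700_an.LogGrowth

/-- The Sobolev space `W^{1,1}(ℝ)`: integrable functions with an integrable weak derivative. -/
def InW11 (η : ℝ → ℝ) : Prop :=
  Integrable η ∧ ∃ g : ℝ → ℝ, Integrable g ∧ ∀ φ : ℝ → ℝ, ContDiff ℝ ∞ φ → HasCompactSupport φ →
    ∫ x, η x * deriv φ x = -∫ x, g x * φ x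

/-- The squared Besov seminorm `sup_{h ≠ 0} ∫ |u(x+h) - u(x)|² / |h| dx` of `B^{1/2}_{2,∞}(ℝ)`. -/
noncomputable def besov (u : ℝ → ℝ) : ℝ≥0∞ :=
  ⨆ h : {h : ℝ // h ≠ 0}, ∫⁻ x, ‖u (x + h) - u x‖ₑ ^ 2 / ‖(h : ℝ)‖ₑ

/-! ### The profile -/

/-- a smooth bump function at `3/2` -/
noncomputable def Th : ℝ → ℝ := (⟨1 / 8, 1 / 4, by norm_num, by norm_num⟩ : ContDiffBump (3 / 2 : ℝ))

lemma Th_contDiff : ContDiff ℝ ∞ Th := ContDiffBump.contDiff _

lemma Th_compact : HasCompactSupport Th := ContDiffBump.hasCompactSupport _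

lemma Th_zero {x : ℝ} (hx : x ∉ Icc (5 / 4 : ℝ) (7 / 4)) : Th x = 0 := by
  unfold Th
  apply ContDiffBump.zero_of_le_dist
  simp only [mem_Icc, not_and_or, not_le] at hx
  rw [Real.dist_eq]
  rcases hx with h | h
  · rw [abs_of_neg (by linarith)]; linarith
  · rw [abs_of_pos (by linarith)]; linarith

lemma Th_one : Th (3 / 2) = 1 := by
  unfold Th
  apply ContDiffBump.one_of_mem_closedBall
  simp

/-- its derivative -/
noncomputable def ps : ℝ → ℝ := deriv Th

lemma ps_cont : Continuous ps := Th_contDiff.continuous_deriv (by simp)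

lemma ps_contDiff : ContDiff ℝ ∞ ps := by
  exact (contDiff_infty_iff_deriv.1 Th_contDiff).2

lemma Th_hasDerivAt (x : ℝ) : HasDerivAt Th (ps x) x :=
  (Th_contDiff.differentiable (by simp) x).hasDerivAt

lemma ps_compact : HasCompactSupport ps := Th_compact.deriv

lemma ps_zero {x : ℝ} (hx : x ∉ Ioo (1 : ℝ) 2) : ps x = 0 := by
  unfold ps
  have h1 : Th =ᶠ[𝓝 x] fun _ => 0 := by
    have h2 : (Icc (5 / 4 : ℝ) (7 / 4))ᶜ ∈ 𝓝 x := by
      apply isClosed_Icc.isOpen_compl.mem_nhds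
      intro h
      apply hx
      constructor <;> linarith [h.1, h.2]
    filter_upwards [h2] with y hy using Th_zero hy
  rw [h1.deriv_eq]
  simp

lemma ps_bdd : ∃ M, ∀ x, |ps x| ≤ M := by
  obtain ⟨M, hM⟩ := ps_cont.bounded_above_of_compact_support ps_compact
  exact ⟨M, fun x => hM x⟩

lemma Th_bdd : ∃ M, ∀ x, |Th x| ≤ M := by
  obtain ⟨M, hM⟩ := Th_contDiff.continuous.bounded_above_of_compact_support Th_compact
  exact ⟨M, fun x => hM x⟩

lemma lip_of_contDiff {w : ℝ → ℝ} (hw : ContDiff ℝ ∞ w) (hc : HasCompactSupport w) :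
    ∃ L, ∀ x y, |w x - w y| ≤ L * |x - y| := by
  obtain ⟨L, hL⟩ := (hw.continuous_deriv (by simp)).bounded_above_of_compact_support hc.deriv
  refine ⟨L, fun x y => ?_⟩
  have := Convex.norm_image_sub_le_of_norm_deriv_le (f := w) (C := L) (s := univ) (x := y) (y := x)
    (fun z _ => hw.differentiable (by simp) z) (fun z _ => hL z) convex_univ (mem_univ _)
    (mem_univ _)
  exact this

lemma gag_Th : gagliardo Th < ⊤ := by
  obtain ⟨M, hM⟩ := Th_bdd
  obtain ⟨L, hL⟩ := lip_of_contDiff Th_contDiff Th_compact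
  refine gagliardo_lt_top (R := 2) hM hL fun x hx => Th_zero fun h => hx ?_
  constructor <;> linarith [h.1, h.2]

lemma gag_ps : gagliardo ps < ⊤ := by
  obtain ⟨M, hM⟩ := ps_bdd
  obtain ⟨L, hL⟩ := lip_of_contDiff ps_contDiff ps_compact
  refine gagliardo_lt_top (R := 2) hM hL fun x hx => ps_zero fun h => hx ?_
  constructor <;> linarith [h.1, h.2]

/-- the squared `L²` norm of the profile -/
noncomputable def K : ℝ≥0∞ := ∫⁻ x, ‖ps x‖ₑ ^ 2

lemma K_lt_top : K < ⊤ := by
  have h1 : MemLp ps 2 volume := ps_cont.memLp_of_hasCompactSupport ps_compact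
  have h2 := h1.eLpNorm_lt_top
  rw [eLpNorm_lt_top_iff_lintegral_rpow_enorm_lt_top (by norm_num) (by norm_num)] at h2
  unfold K
  simpa using h2

lemma K_pos : K ≠ 0 := by
  intro h
  unfold K at h
  rw [lintegral_eq_zero_iff (by exact ps_cont.measurable.enorm.pow_const 2)] at h
  have h1 : ps =ᵐ[volume] fun _ => 0 := by
    filter_upwards [h] with x hx
    simpa using hx
  have h2 : ps = fun _ => 0 := ps_cont.ae_eq_iff_eq volume continuous_const |>.1 h1
  have h3 : ∀ x, Th x = Th 0 := fun x =>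
    is_const_of_deriv_eq_zero (Th_contDiff.differentiable (by simp)) (fun x => congrFun h2 x) x 0
  have h4 : Th 0 = 0 := Th_zero (by norm_num)
  have h5 := h3 (3 / 2)
  rw [Th_one, h4] at h5
  norm_num at h5

/-! ### The function `u` -/

/-- the scales -/
noncomputable def la (j : ℕ) : ℝ := Real.exp ((64 : ℝ) ^ j)

lemma la_pos (j : ℕ) : 0 < la j := Real.exp_pos _

lemma la_mono {i j : ℕ} (h : i < j) : 4 * la i ≤ la j := by
  unfold la
  have h1 : (64 : ℝ) ^ i + 63 ≤ (64 : ℝ) ^ j := by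
    have h2 : (64 : ℝ) ^ (i + 1) ≤ (64 : ℝ) ^ j := pow_le_pow_right₀ (by norm_num) h
    have h3 : (1 : ℝ) ≤ (64 : ℝ) ^ i := one_le_pow₀ (by norm_num)
    rw [pow_succ] at h2
    linarith
  calc 4 * Real.exp ((64 : ℝ) ^ i) ≤ Real.exp 63 * Real.exp ((64 : ℝ) ^ i) := by
        refine mul_le_mul_of_nonneg_right ?_ (Real.exp_pos _).le
        have := Real.add_one_le_exp (63 : ℝ)
        linarith
    _ = Real.exp ((64 : ℝ) ^ i + 63) := by rw [← Real.exp_add]; ring_nf
    _ ≤ _ := Real.exp_le_exp.2 h1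

/-- the building blocks -/
noncomputable def T (j : ℕ) (x : ℝ) : ℝ := (2 : ℝ) ^ j * ps (la j * x)

lemma T_cont (j : ℕ) : Continuous (T j) := by
  unfold T
  exact continuous_const.mul (ps_cont.comp (by fun_prop))

lemma T_ne {j : ℕ} {x : ℝ} (h : T j x ≠ 0) : 1 < la j * x ∧ la j * x < 2 := by
  by_contra hcon
  apply h
  unfold T
  rw [ps_zero hcon, mul_zero]

lemma T_unique {i j : ℕ} {x : ℝ} (hi : T i x ≠ 0) (hj : T j x ≠ 0) : i = j := by
  obtain ⟨h1, h2⟩ := T_ne hi
  obtain ⟨h3, h4⟩ := T_ne hj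
  by_contra hne
  have hx : 0 < x := by
    by_contra hx
    push Not at hx
    nlinarith [la_pos i]
  rcases lt_or_gt_of_ne hne with h | h
  · have := mul_le_mul_of_nonneg_right (la_mono h) hx.le
    nlinarith
  · have := mul_le_mul_of_nonneg_right (la_mono h) hx.le
    nlinarith

lemma T_single (x : ℝ) : ∃ j, ∀ i, i ≠ j → T i x = 0 := by
  by_cases h : ∃ j, T j x ≠ 0
  · obtain ⟨j, hj⟩ := h
    refine ⟨j, fun i hi => ?_⟩
    by_contra hne
    exact hi (T_unique hne hj)
  · push Not at h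
    exact ⟨0, fun i _ => h i⟩

/-- the counterexample -/
noncomputable def u (x : ℝ) : ℝ := ∑' j, T j x

lemma T_hasSum (x : ℝ) : HasSum (fun j => T j x) (u x) := by
  obtain ⟨j, hj⟩ := T_single x
  have h := hasSum_single (f := fun j => T j x) j hj
  have : u x = T j x := by
    unfold u
    exact tsum_eq_single j hj
  rw [this]
  exact h

lemma u_eq {j : ℕ} {x : ℝ} (hj : T j x ≠ 0) : u x = T j x := by
  unfold u
  refine tsum_eq_single j fun i hi => ?_
  by_contra hne
  exact hi (T_unique hne hj)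

lemma enorm_u (x : ℝ) : ‖u x‖ₑ = ∑' j, ‖T j x‖ₑ := by
  obtain ⟨j, hj⟩ := T_single x
  have h1 : u x = T j x := by
    unfold u
    exact tsum_eq_single j hj
  rw [h1, tsum_eq_single j]
  intro i hi
  rw [hj i hi, enorm_zero]

lemma enorm_u_sq (x : ℝ) : ‖u x‖ₑ ^ 2 = ∑' j, ‖T j x‖ₑ ^ 2 := by
  obtain ⟨j, hj⟩ := T_single x
  have h1 : u x = T j x := by
    unfold u
    exact tsum_eq_single j hj
  rw [h1, tsum_eq_single j]
  intro i hi
  rw [hj i hi, enorm_zero]
  simp

lemma u_meas : Measurable u := by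
  refine measurable_of_tendsto_metrizable (f := fun n x => ∑ j ∈ Finset.range n, T j x) ?_ ?_
  · intro n
    exact Finset.measurable_sum _ fun j _ => (T_cont j).measurable
  · rw [tendsto_pi_nhds]
    intro x
    exact (T_hasSum x).tendsto_sum_nat

lemma lintegral_T (j : ℕ) : ∫⁻ x, ‖T j x‖ₑ ^ 2
    = ENNReal.ofReal ((4 : ℝ) ^ j) * (ENNReal.ofReal (la j)⁻¹ * K) := by
  have h1 : ∀ x, ‖T j x‖ₑ ^ 2 = ENNReal.ofReal ((4 : ℝ) ^ j) * ‖ps (la j * x)‖ₑ ^ 2 := by
    intro x
    unfold T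
    rw [enorm_mul, mul_pow, Real.enorm_of_nonneg (by positivity), ← ENNReal.ofReal_pow (by positivity),
      ← pow_mul, mul_comm j 2, pow_mul]
    norm_num
  simp_rw [h1]
  rw [lintegral_const_mul' _ _ ENNReal.ofReal_ne_top,
    lintegral_mul_left (fun x => ‖ps x‖ₑ ^ 2) (la_pos j)]
  rfl

lemma lintegral_u : ∫⁻ x, ‖u x‖ₑ ^ 2 < ⊤ := by
  simp_rw [enorm_u_sq]
  rw [lintegral_tsum fun j => ((T_cont j).measurable.enorm.pow_const 2).aemeasurable]
  simp_rw [lintegral_T]
  have h1 : ∀ j : ℕ, ENNReal.ofReal ((4 : ℝ) ^ j) * (ENNReal.ofReal (la j)⁻¹ * K)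
      ≤ ENNReal.ofReal ((1 / 16 : ℝ) ^ j) * K := by
    intro j
    rw [← mul_assoc, ← ENNReal.ofReal_mul (by positivity)]
    refine mul_le_mul_left (ENNReal.ofReal_le_ofReal ?_) K
    have h2 : (64 : ℝ) ^ j ≤ la j := by
      have := Real.add_one_le_exp ((64 : ℝ) ^ j)
      unfold la
      linarith
    calc (4 : ℝ) ^ j * (la j)⁻¹ ≤ (4 : ℝ) ^ j * ((64 : ℝ) ^ j)⁻¹ :=
          mul_le_mul_of_nonneg_left (inv_anti₀ (by positivity) h2) (by positivity)
      _ = (1 / 16 : ℝ) ^ j := by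
          rw [← inv_pow, ← mul_pow]; norm_num
  refine lt_of_le_of_lt (ENNReal.tsum_le_tsum h1) ?_
  rw [ENNReal.tsum_mul_right]
  refine ENNReal.mul_lt_top ?_ K_lt_top
  rw [← ENNReal.ofReal_tsum_of_nonneg (fun j => by positivity)
    (summable_geometric_of_lt_one (by norm_num) (by norm_num))]
  exact ENNReal.ofReal_lt_top

lemma u_memLp : MemLp u 2 volume := by
  refine ⟨u_meas.aestronglyMeasurable, ?_⟩
  rw [eLpNorm_lt_top_iff_lintegral_rpow_enorm_lt_top (by norm_num) (by norm_num)]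
  simpa using lintegral_u

/-! ### The Besov seminorm is infinite -/

lemma besov_ge (j : ℕ) : ENNReal.ofReal ((4 : ℝ) ^ j) * (K / 2) ≤ besov u := by
  set h : ℝ := 2 / la j with hh
  have hpos : 0 < h := div_pos two_pos (la_pos j)
  refine le_trans ?_ (le_iSup (fun h : {h : ℝ // h ≠ 0} =>
    ∫⁻ x, ‖u (x + h) - u x‖ₑ ^ 2 / ‖(h : ℝ)‖ₑ) ⟨h, hpos.ne'⟩)
  have h1 : ∀ x, ‖T j x‖ₑ ^ 2 ≤ ‖u (x + h) - u x‖ₑ ^ 2 := by
    intro x
    by_cases hx : T j x = 0
    · rw [hx, enorm_zero]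
      simp
    · have h2 : u (x + h) = 0 := by
        unfold u
        have h3 : ∀ i, T i (x + h) = 0 := by
          intro i
          by_contra hne
          obtain ⟨h4, h5⟩ := T_ne hne
          obtain ⟨h6, h7⟩ := T_ne hx
          have h8 : la j * (x + h) = la j * x + 2 := by
            rw [hh, mul_add, mul_div_cancel₀ _ (la_pos j).ne']
          have hxh : 0 < x + h := by
            by_contra hc
            push Not at hc
            nlinarith [la_pos i]
          rcases lt_trichotomy i j with h9 | h9 | h9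
          · have := mul_le_mul_of_nonneg_right (la_mono h9) hxh.le
            nlinarith
          · subst h9
            linarith
          · have := mul_le_mul_of_nonneg_right (la_mono h9) hxh.le
            nlinarith
        simp [h3]
      rw [h2, u_eq hx, zero_sub, enorm_neg]
  calc ENNReal.ofReal ((4 : ℝ) ^ j) * (K / 2) = (∫⁻ x, ‖T j x‖ₑ ^ 2) / ‖h‖ₑ := by
        rw [lintegral_T, Real.enorm_of_nonneg hpos.le, hh, ENNReal.ofReal_div_of_pos (la_pos j),
          ENNReal.ofReal_inv_of_pos (la_pos j), mul_div_assoc]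
        congr 1
        have hl0 : ENNReal.ofReal (la j) ≠ 0 := by
          rw [ne_eq, ENNReal.ofReal_eq_zero]; linarith [la_pos j]
        rw [ENNReal.ofReal_ofNat, ENNReal.div_eq_inv_mul, ENNReal.div_eq_inv_mul,
          ENNReal.div_eq_inv_mul, ENNReal.mul_inv (Or.inl (ENNReal.inv_ne_zero.2 ENNReal.ofReal_ne_top))
          (Or.inl (ENNReal.inv_ne_top.2 hl0)), inv_inv]
        rw [mul_comm (ENNReal.ofReal (la j)) (2 : ℝ≥0∞)⁻¹, mul_assoc, ← mul_assoc (ENNReal.ofReal (la j)),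
          ENNReal.mul_inv_cancel hl0 ENNReal.ofReal_ne_top, one_mul]
    _ ≤ _ := by
        rw [ENNReal.div_eq_inv_mul, ← lintegral_const_mul' _ _
          (ENNReal.inv_ne_top.2 (by rw [ne_eq, enorm_eq_zero]; exact hpos.ne'))]
        refine lintegral_mono fun x => ?_
        simp only
        rw [ENNReal.div_eq_inv_mul]
        exact mul_le_mul_right (h1 x) _

lemma besov_top : besov u = ⊤ := by
  have h1 : Tendsto (fun j : ℕ => ENNReal.ofReal ((4 : ℝ) ^ j) * (K / 2)) atTop (𝓝 (⊤ * (K / 2))) := by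
    refine ENNReal.Tendsto.mul_const ?_ (Or.inl ENNReal.top_ne_zero)
    exact ENNReal.tendsto_ofReal_atTop.comp (tendsto_pow_atTop_atTop_of_one_lt (by norm_num))
  have h2 : (⊤ : ℝ≥0∞) * (K / 2) = ⊤ := by
    refine ENNReal.top_mul ?_
    rw [ne_eq, ENNReal.div_eq_zero_iff, not_or]
    exact ⟨K_pos, by norm_num⟩
  rw [h2] at h1
  exact top_le_iff.1 (le_of_tendsto' h1 besov_ge)

/-! ### The mollifications -/

section moll

variable {η g : ℝ → ℝ}

lemma T_bdd (j : ℕ) : ∃ M, ∀ x, |T j x| ≤ M := by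
  obtain ⟨M, hM⟩ := ps_bdd
  refine ⟨2 ^ j * M, fun x => ?_⟩
  unfold T
  rw [abs_mul, abs_of_pos (by positivity)]
  exact mul_le_mul_of_nonneg_left (hM _) (by positivity)

/-- first bound -/
lemma gag_block_one (hη : Integrable η) (ε : ℝ) (j : ℕ) :
    gagliardo (moll η ε (T j))
      ≤ ENNReal.ofReal ((4 : ℝ) ^ j) * ((∫⁻ z, ‖η z‖ₑ) ^ 2 * gagliardo ps) := by
  obtain ⟨M, hM⟩ := T_bdd j
  refine (gagliardo_moll_le hη (T_cont j) hM ε).trans (le_of_eq ?_)
  have h1 : gagliardo (T j) = ENNReal.ofReal ((4 : ℝ) ^ j) * gagliardo ps := by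
    unfold T
    rw [gagliardo_const_mul, gagliardo_scale ps (la_pos j), Real.enorm_of_nonneg (by positivity),
      ← ENNReal.ofReal_pow (by positivity), ← pow_mul, mul_comm j 2, pow_mul]
    norm_num
  rw [h1]
  ring

/-- the mollification of a block through the weak derivative -/
lemma moll_block (hg : ∀ φ : ℝ → ℝ, ContDiff ℝ ∞ φ → HasCompactSupport φ →
    ∫ x, η x * deriv φ x = -∫ x, g x * φ x) {ε : ℝ} (hε : 0 < ε) (j : ℕ) :
    moll η ε (T j) = fun x => ((2 : ℝ) ^ j / (ε * la j)) * moll g ε (fun y => Th (la j * y)) x := by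
  funext x
  have hle : 0 < ε * la j := mul_pos hε (la_pos j)
  set φ : ℝ → ℝ := fun z => Th (la j * (x - ε * z)) with hφ
  have hφc : ContDiff ℝ ∞ φ := Th_contDiff.comp (by fun_prop)
  have hφs : HasCompactSupport φ := by
    have e : φ = Th ∘ ((Homeomorph.mulLeft₀ (-(ε * la j)) (neg_ne_zero.2 hle.ne')).trans
        (Homeomorph.addRight (la j * x))) := by
      funext z
      simp only [hφ, Function.comp_apply, Homeomorph.trans_apply, Homeomorph.coe_mulLeft₀,
        Homeomorph.coe_addRight]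
      congr 1
      ring
    rw [e]
    exact Th_compact.comp_homeomorph _
  have hφd : ∀ z, deriv φ z = -(ε * la j) * ps (la j * (x - ε * z)) := by
    intro z
    have h1 : HasDerivAt (fun z => la j * (x - ε * z)) (-(ε * la j)) z := by
      have h0 : HasDerivAt (fun z : ℝ => la j * (x - ε * z)) (la j * (-(ε * 1))) z :=
        (((hasDerivAt_id z).const_mul ε).const_sub x).const_mul (la j)
      have e0 : la j * (-(ε * 1)) = -(ε * la j) := by ring
      rw [e0] at h0
      exact h0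
    have h2 := (Th_hasDerivAt (la j * (x - ε * z))).comp z h1
    rw [show φ = Th ∘ fun z => la j * (x - ε * z) from rfl, h2.deriv]
    ring
  have h3 := hg φ hφc hφs
  simp_rw [hφd] at h3
  have h4 : ∫ z, η z * (-(ε * la j) * ps (la j * (x - ε * z)))
      = -(ε * la j) * ∫ z, η z * ps (la j * (x - ε * z)) := by
    rw [← integral_const_mul]
    refine integral_congr_ae (Eventually.of_forall fun z => ?_)
    simp only
    ring
  rw [h4] at h3
  have h5 : ∫ z, η z * ps (la j * (x - ε * z)) = (ε * la j)⁻¹ * ∫ z, g z * φ z := by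
    rw [eq_inv_mul_iff_mul_eq₀ hle.ne']
    linarith
  unfold moll T
  have h6 : ∫ z, η z * ((2 : ℝ) ^ j * ps (la j * (x - ε * z)))
      = (2 : ℝ) ^ j * ∫ z, η z * ps (la j * (x - ε * z)) := by
    rw [← integral_const_mul]
    refine integral_congr_ae (Eventually.of_forall fun z => ?_)
    simp only
    ring
  rw [h6, h5, hφ]
  ring

/-- second bound -/
lemma gag_block_two (hgi : Integrable g) (hg : ∀ φ : ℝ → ℝ, ContDiff ℝ ∞ φ → HasCompactSupport φ →
    ∫ x, η x * deriv φ x = -∫ x, g x * φ x) {ε : ℝ} (hε : 0 < ε) (j : ℕ) :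
    gagliardo (moll η ε (T j)) ≤ ENNReal.ofReal ((4 : ℝ) ^ j * (1 / (ε * la j)) ^ 2)
      * ((∫⁻ z, ‖g z‖ₑ) ^ 2 * gagliardo Th) := by
  obtain ⟨M, hM⟩ := Th_bdd
  have hle : 0 < ε * la j := mul_pos hε (la_pos j)
  rw [moll_block hg hε j, gagliardo_const_mul]
  have h1 := gagliardo_moll_le hgi (w := fun y => Th (la j * y))
    (Th_contDiff.continuous.comp (by fun_prop)) (M := M) (fun x => hM _) ε
  rw [gagliardo_scale Th (la_pos j)] at h1
  refine (mul_le_mul_right h1 _).trans (le_of_eq ?_)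
  congr 1
  rw [Real.enorm_of_nonneg (by positivity), ← ENNReal.ofReal_pow (by positivity)]
  congr 1
  rw [div_pow, ← pow_mul, mul_comm j 2, pow_mul, one_div, inv_pow]
  norm_num
  rfl

/-- almost every point is good -/
lemma ae_good (hη : Integrable η) (ε : ℝ) :
    ∀ᵐ x, ∫⁻ z, ‖η z‖ₑ * ‖u (x - ε * z)‖ₑ < ⊤ := by
  have hmeas : AEMeasurable (fun q : ℝ × ℝ => ‖η q.2‖ₑ * ‖u (q.1 - ε * q.2)‖ₑ ^ 2)
      (volume.prod volume) := by
    refine AEMeasurable.mul (M := ℝ≥0∞) ?_ ?_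
    · exact hη.1.enorm.comp_quasiMeasurePreserving Measure.quasiMeasurePreserving_snd
    · have hc : Measurable fun q : ℝ × ℝ => q.1 - ε * q.2 := by fun_prop
      have hu : Measurable fun q : ℝ × ℝ => u (q.1 - ε * q.2) := u_meas.comp hc
      exact (hu.enorm.pow_const 2).aemeasurable
  have h1 : ∫⁻ x, ∫⁻ z, ‖η z‖ₑ * ‖u (x - ε * z)‖ₑ ^ 2 < ⊤ := by
    rw [lintegral_lintegral_swap hmeas]
    have h2 : ∀ z, ∫⁻ x, ‖η z‖ₑ * ‖u (x - ε * z)‖ₑ ^ 2 = ‖η z‖ₑ * ∫⁻ x, ‖u x‖ₑ ^ 2 := by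
      intro z
      rw [lintegral_const_mul' _ _ enorm_ne_top]
      congr 1
      exact lintegral_sub_right_eq_self (fun x => ‖u x‖ₑ ^ 2) (ε * z)
    simp_rw [h2]
    rw [lintegral_mul_const'' _ hη.1.enorm]
    exact ENNReal.mul_lt_top hη.2 lintegral_u
  have h3 := ae_lt_top' hmeas.lintegral_prod_right' h1.ne
  filter_upwards [h3] with x hx
  have hc : Measurable fun z : ℝ => x - ε * z := by fun_prop
  have hu : Measurable fun z : ℝ => u (x - ε * z) := u_meas.comp hc
  have h4 := sq_lintegral volume (a := fun z => ‖η z‖ₑ) (b := fun z => ‖u (x - ε * z)‖ₑ)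
    hη.1.enorm hu.enorm.aemeasurable
  have h5 : (∫⁻ z, ‖η z‖ₑ * ‖u (x - ε * z)‖ₑ) ^ 2 < ⊤ :=
    lt_of_le_of_lt h4 (ENNReal.mul_lt_top hη.2 hx)
  by_contra hcon
  rw [not_lt, top_le_iff] at hcon
  rw [hcon] at h5
  simp at h5

lemma block_sum (hη : Integrable η) {ε x : ℝ}
    (hx : ∫⁻ z, ‖η z‖ₑ * ‖u (x - ε * z)‖ₑ < ⊤) :
    HasSum (fun j => moll η ε (T j) x) (moll η ε u x) := by
  have hm : ∀ j, AEStronglyMeasurable (fun z => η z * T j (x - ε * z)) volume := fun j =>
    hη.1.mul ((T_cont j).comp (by fun_prop)).aestronglyMeasurable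
  have h1 : ∑' j, ∫⁻ z, ‖η z * T j (x - ε * z)‖ₑ ≠ ⊤ := by
    rw [← lintegral_tsum fun j => (hm j).enorm]
    refine ne_of_lt (lt_of_le_of_lt (le_of_eq ?_) hx)
    refine lintegral_congr fun z => ?_
    simp_rw [enorm_mul]
    rw [ENNReal.tsum_mul_left, ← enorm_u]
  have h2 := integral_tsum hm h1
  have h3 : Summable fun j => moll η ε (T j) x := by
    have h4 : ∑' j, ‖moll η ε (T j) x‖ₑ ≠ ⊤ := by
      refine ne_top_of_le_ne_top h1 (ENNReal.tsum_le_tsum fun j => ?_)
      exact enorm_integral_le_lintegral_enorm _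
    have h5 : Summable fun j => ‖moll η ε (T j) x‖₊ := ENNReal.tsum_coe_ne_top_iff_summable.1 h4
    refine Summable.of_norm ?_
    exact (NNReal.summable_coe.2 h5 : Summable fun j => ((‖moll η ε (T j) x‖₊ : NNReal) : ℝ))
  have h6 : moll η ε u x = ∑' j, moll η ε (T j) x := by
    unfold moll at *
    rw [← h2]
    refine integral_congr_ae (Eventually.of_forall fun z => ?_)
    simp only
    rw [tsum_mul_left]
    rfl
  rw [h6]
  exact h3.hasSum

lemma moll_T_cont (hη : Integrable η) (ε : ℝ) (j : ℕ) : Continuous (moll η ε (T j)) := by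
  obtain ⟨M, hM⟩ := T_bdd j
  unfold moll
  refine continuous_of_dominated (bound := fun z => ‖η z‖ * M) ?_ ?_ ?_ ?_
  · intro x
    exact hη.1.mul ((T_cont j).comp (by fun_prop)).aestronglyMeasurable
  · intro x
    refine Eventually.of_forall fun z => ?_
    rw [norm_mul]
    exact mul_le_mul_of_nonneg_left (hM _) (norm_nonneg _)
  · exact hη.norm.mul_const M
  · refine Eventually.of_forall fun z => ?_
    exact continuous_const.mul ((T_cont j).comp (by fun_prop))

/-- the weights -/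
noncomputable def we (ε : ℝ) (j : ℕ) : ℝ≥0∞ := ENNReal.ofReal (min 1 (1 / (ε * la j)))

lemma we_ne_zero {ε : ℝ} (hε : 0 < ε) (j : ℕ) : we ε j ≠ 0 := by
  unfold we
  rw [ne_eq, ENNReal.ofReal_eq_zero, not_le]
  exact lt_min one_pos (div_pos one_pos (mul_pos hε (la_pos j)))

lemma we_ne_top (ε : ℝ) (j : ℕ) : we ε j ≠ ⊤ := ENNReal.ofReal_ne_top

/-- weighted Cauchy-Schwarz for series -/
lemma sq_tsum {t w : ℕ → ℝ≥0∞} (h0 : ∀ j, w j ≠ 0) (h1 : ∀ j, w j ≠ ⊤) :
    (∑' j, t j) ^ 2 ≤ (∑' j, w j) * ∑' j, t j ^ 2 / w j := by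
  have h := sq_lintegral Measure.count (a := w) (b := fun j => t j / w j)
    (measurable_of_countable _).aemeasurable (measurable_of_countable _).aemeasurable
  simp only [lintegral_count] at h
  have e1 : ∀ j, w j * (t j / w j) = t j := fun j => ENNReal.mul_div_cancel (h0 j) (h1 j)
  have e2 : ∀ j, w j * (t j / w j) ^ 2 = t j ^ 2 / w j := by
    intro j
    rw [sq, ← mul_assoc, e1, sq, mul_div_assoc]
  simp only [e1, e2] at h
  exact h

lemma gag_moll_u (hη : Integrable η) {ε : ℝ} (hε : 0 < ε) :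
    gagliardo (moll η ε u) ≤ (∑' j, we ε j) * ∑' j, gagliardo (moll η ε (T j)) / we ε j := by
  have hgood := ae_good hη ε
  have hm : ∀ j, Measurable (Function.uncurry fun x y : ℝ =>
      ‖moll η ε (T j) x - moll η ε (T j) y‖ₑ ^ 2 / ‖x - y‖ₑ ^ 2) := fun j =>
    measurable_quot (moll_T_cont hη ε j)
  have h1 : gagliardo (moll η ε u) ≤ ∫⁻ x, ∫⁻ y, (∑' j, we ε j) *
      ∑' j, (‖moll η ε (T j) x - moll η ε (T j) y‖ₑ ^ 2 / ‖x - y‖ₑ ^ 2) / we ε j := by
    unfold gagliardo
    refine lintegral_mono_ae ?_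
    filter_upwards [hgood] with x hx
    refine lintegral_mono_ae ?_
    filter_upwards [hgood] with y hy
    have h2 := (block_sum hη hx).sub (block_sum hη hy)
    have h3 : ‖moll η ε u x - moll η ε u y‖ₑ ≤ ∑' j, ‖moll η ε (T j) x - moll η ε (T j) y‖ₑ := by
      rw [← h2.tsum_eq]
      exact enorm_tsum_le_tsum_enorm
    have h4 := (pow_le_pow_left' h3 2).trans (sq_tsum (we_ne_zero hε) (we_ne_top ε))
    refine (ENNReal.div_le_div_right h4 _).trans (le_of_eq ?_)
    rw [mul_div_assoc]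
    congr 1
    rw [ENNReal.div_eq_inv_mul, ← ENNReal.tsum_mul_left]
    refine tsum_congr fun j => ?_
    simp only [ENNReal.div_eq_inv_mul]
    ring
  refine h1.trans (le_of_eq ?_)
  by_cases hW : (∑' j, we ε j) = ⊤
  · -- cannot happen, but the inequality is easy to bypass: the weights are summable
    exfalso
    have h5 : ∀ j, we ε j ≤ ENNReal.ofReal (1 / ε) * ENNReal.ofReal ((1 / 64 : ℝ) ^ j) := by
      intro j
      unfold we
      rw [← ENNReal.ofReal_mul (by positivity)]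
      refine ENNReal.ofReal_le_ofReal ((min_le_right _ _).trans ?_)
      have h2 : (64 : ℝ) ^ j ≤ la j := by
        have := Real.add_one_le_exp ((64 : ℝ) ^ j)
        unfold la
        linarith
      have h6 : (1 / 64 : ℝ) ^ j = 1 / (64 : ℝ) ^ j := by rw [div_pow, one_pow]
      rw [h6, div_mul_div_comm, one_mul]
      exact div_le_div_of_nonneg_left zero_le_one (by positivity)
        (mul_le_mul_of_nonneg_left h2 hε.le)
    have h7 : ∑' j, we ε j < ⊤ := by
      refine lt_of_le_of_lt (ENNReal.tsum_le_tsum h5) ?_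
      rw [ENNReal.tsum_mul_left]
      refine ENNReal.mul_lt_top ENNReal.ofReal_lt_top ?_
      rw [← ENNReal.ofReal_tsum_of_nonneg (fun j => by positivity)
        (summable_geometric_of_lt_one (by norm_num) (by norm_num))]
      exact ENNReal.ofReal_lt_top
    exact h7.ne hW
  · simp_rw [lintegral_const_mul' _ _ hW]
    congr 1
    have hq : ∀ j, Measurable (Function.uncurry fun x y : ℝ =>
        (‖moll η ε (T j) x - moll η ε (T j) y‖ₑ ^ 2 / ‖x - y‖ₑ ^ 2) / we ε j) := fun j =>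
      (hm j).div_const _
    have h8 : ∀ x, ∫⁻ y, ∑' j, (‖moll η ε (T j) x - moll η ε (T j) y‖ₑ ^ 2 / ‖x - y‖ₑ ^ 2) / we ε j
        = ∑' j, ∫⁻ y, (‖moll η ε (T j) x - moll η ε (T j) y‖ₑ ^ 2 / ‖x - y‖ₑ ^ 2) / we ε j := by
      intro x
      exact lintegral_tsum fun j => ((hq j).comp measurable_prodMk_left).aemeasurable
    simp_rw [h8]
    have h9 := lintegral_tsum (μ := (volume : Measure ℝ)) (f := fun (j : ℕ) (x : ℝ) =>
      ∫⁻ y, (‖moll η ε (T j) x - moll η ε (T j) y‖ₑ ^ 2 / ‖x - y‖ₑ ^ 2) / we ε j)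
      (fun j => ((hq j).lintegral_prod_right').aemeasurable)
    rw [h9]
    refine tsum_congr fun j => ?_
    unfold gagliardo
    simp_rw [ENNReal.div_eq_inv_mul]
    simp_rw [lintegral_const_mul' _ _ (ENNReal.inv_ne_top.2 (we_ne_zero hε j))]

/-- the final bound -/
lemma gag_final (hη : Integrable η) (hgi : Integrable g) (hg : ∀ φ : ℝ → ℝ, ContDiff ℝ ∞ φ →
    HasCompactSupport φ → ∫ x, η x * deriv φ x = -∫ x, g x * φ x) {ε : ℝ} (hε : 0 < ε) :
    gagliardo (moll η ε u) ≤ ((∫⁻ z, ‖η z‖ₑ) ^ 2 * gagliardo ps + (∫⁻ z, ‖g z‖ₑ) ^ 2 * gagliardo Th)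
      * (∑' j, ENNReal.ofReal ((4 : ℝ) ^ j) * we ε j) ^ 2 := by
  set C := (∫⁻ z, ‖η z‖ₑ) ^ 2 * gagliardo ps + (∫⁻ z, ‖g z‖ₑ) ^ 2 * gagliardo Th with hC
  have h1 : ∀ j, gagliardo (moll η ε (T j)) / we ε j ≤ C * (ENNReal.ofReal ((4 : ℝ) ^ j) * we ε j) := by
    intro j
    rw [ENNReal.div_le_iff (we_ne_zero hε j) (we_ne_top ε j)]
    have hle : 0 < ε * la j := mul_pos hε (la_pos j)
    rcases le_total 1 (1 / (ε * la j)) with h | h
    · have hw : we ε j = 1 := by
        unfold we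
        rw [min_eq_left h, ENNReal.ofReal_one]
      rw [hw, mul_one, mul_one]
      refine (gag_block_one hη ε j).trans ?_
      rw [mul_comm]
      exact mul_le_mul_left (by rw [hC]; exact le_self_add) _
    · have hw : we ε j = ENNReal.ofReal (1 / (ε * la j)) := by
        unfold we
        rw [min_eq_right h]
      refine (gag_block_two hgi hg hε j).trans ?_
      have e : ENNReal.ofReal ((4 : ℝ) ^ j * (1 / (ε * la j)) ^ 2)
          = ENNReal.ofReal ((4 : ℝ) ^ j) * ENNReal.ofReal (1 / (ε * la j)) ^ 2 := by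
        have e1 : ENNReal.ofReal ((1 / (ε * la j)) ^ 2) = ENNReal.ofReal (1 / (ε * la j)) ^ 2 :=
          ENNReal.ofReal_pow (by positivity) 2
        rw [ENNReal.ofReal_mul (by positivity), e1]
      rw [hw, e]
      calc ENNReal.ofReal ((4 : ℝ) ^ j) * ENNReal.ofReal (1 / (ε * la j)) ^ 2
            * ((∫⁻ z, ‖g z‖ₑ) ^ 2 * gagliardo Th)
          ≤ ENNReal.ofReal ((4 : ℝ) ^ j) * ENNReal.ofReal (1 / (ε * la j)) ^ 2 * C :=
            mul_le_mul_right (by rw [hC]; exact le_add_self) _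
        _ = _ := by ring
  refine (gag_moll_u hη hε).trans ?_
  calc (∑' j, we ε j) * ∑' j, gagliardo (moll η ε (T j)) / we ε j
      ≤ (∑' j, ENNReal.ofReal ((4 : ℝ) ^ j) * we ε j)
        * ∑' j, C * (ENNReal.ofReal ((4 : ℝ) ^ j) * we ε j) := by
        refine mul_le_mul' (ENNReal.tsum_le_tsum fun j => ?_) (ENNReal.tsum_le_tsum h1)
        have : (1 : ℝ≥0∞) ≤ ENNReal.ofReal ((4 : ℝ) ^ j) := by
          rw [← ENNReal.ofReal_one]
          exact ENNReal.ofReal_le_ofReal (one_le_pow₀ (by norm_num))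
        calc we ε j = 1 * we ε j := (one_mul _).symm
          _ ≤ _ := mul_le_mul_left this _
    _ = _ := by
        rw [ENNReal.tsum_mul_left]
        ring

end moll

lemma sum_bound {ε : ℝ} (hε : 0 < ε) (hε1 : ε ≤ Real.exp (-1)) :
    ∑' j, ENNReal.ofReal ((4 : ℝ) ^ j) * we ε j ≤ ENNReal.ofReal (2 * Real.sqrt |Real.log ε|) := by
  set t := |Real.log ε| with ht
  have hlog : Real.log ε ≤ -1 := by
    rw [Real.log_le_iff_le_exp hε]; exact hε1
  have htl : t = -Real.log ε := by rw [ht, abs_of_neg (by linarith)]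
  have ht1 : 1 ≤ t := by linarith
  have hεt : ε = Real.exp (-t) := by rw [htl, neg_neg, Real.exp_log hε]
  have hterm : ∀ j : ℕ, (4 : ℝ) ^ j * min 1 (1 / (ε * la j)) ≤ (1 / 2 : ℝ) ^ j * Real.sqrt t := by
    intro j
    set L : ℝ := (64 : ℝ) ^ j with hL
    have hL0 : 0 < L := by positivity
    have h8 : Real.sqrt L = 8 ^ j := by
      rw [hL, show (64 : ℝ) = 8 ^ 2 by norm_num, ← pow_mul, mul_comm 2 j, pow_mul,
        Real.sqrt_sq (by positivity)]
    have h4 : (4 : ℝ) ^ j = (1 / 2 : ℝ) ^ j * Real.sqrt L := by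
      rw [h8, ← mul_pow]; norm_num
    rw [h4, mul_assoc]
    refine mul_le_mul_of_nonneg_left ?_ (by positivity)
    rcases le_total L t with h | h
    · calc Real.sqrt L * min 1 (1 / (ε * la j)) ≤ Real.sqrt L * 1 :=
            mul_le_mul_of_nonneg_left (min_le_left _ _) (Real.sqrt_nonneg _)
        _ = Real.sqrt L := mul_one _
        _ ≤ Real.sqrt t := Real.sqrt_le_sqrt h
    · have h5 : 1 / (ε * la j) = (Real.exp (L - t))⁻¹ := by
        rw [hεt, la, ← hL, ← Real.exp_add, one_div]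
        congr 2
        ring
      have h6 : Real.sqrt L ≤ Real.sqrt t * Real.exp (L - t) := by
        have h7 : L ≤ t * (1 + (L - t)) := by nlinarith
        calc Real.sqrt L ≤ Real.sqrt (t * (1 + (L - t))) := Real.sqrt_le_sqrt h7
          _ = Real.sqrt t * Real.sqrt (1 + (L - t)) := Real.sqrt_mul (by linarith) _
          _ ≤ Real.sqrt t * Real.exp (L - t) := by
              refine mul_le_mul_of_nonneg_left ?_ (Real.sqrt_nonneg _)
              have h9 : Real.sqrt (1 + (L - t)) ≤ 1 + (L - t) := by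
                rw [Real.sqrt_le_left (by linarith)]
                nlinarith
              have h10 := Real.add_one_le_exp (L - t)
              linarith
      calc Real.sqrt L * min 1 (1 / (ε * la j)) ≤ Real.sqrt L * (1 / (ε * la j)) :=
            mul_le_mul_of_nonneg_left (min_le_right _ _) (Real.sqrt_nonneg _)
        _ = Real.sqrt L * (Real.exp (L - t))⁻¹ := by rw [h5]
        _ ≤ Real.sqrt t := by
            rw [← div_eq_mul_inv, div_le_iff₀ (Real.exp_pos _)]
            exact h6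
  have h1 : ∀ j : ℕ, ENNReal.ofReal ((4 : ℝ) ^ j) * we ε j
      ≤ ENNReal.ofReal ((1 / 2 : ℝ) ^ j * Real.sqrt t) := by
    intro j
    unfold we
    rw [← ENNReal.ofReal_mul (by positivity)]
    exact ENNReal.ofReal_le_ofReal (hterm j)
  refine (ENNReal.tsum_le_tsum h1).trans ?_
  have hs : Summable fun j : ℕ => (1 / 2 : ℝ) ^ j * Real.sqrt t :=
    (summable_geometric_of_lt_one (by norm_num) (by norm_num)).mul_right _
  rw [← ENNReal.ofReal_tsum_of_nonneg (fun j => by positivity) hs, tsum_mul_right,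
    tsum_geometric_of_lt_one (by norm_num) (by norm_num)]
  refine ENNReal.ofReal_le_ofReal (le_of_eq ?_)
  norm_num

theorem limsup_lt_top {η : ℝ → ℝ} (h : InW11 η) :
    limsup (fun ε => gagliardo (moll η ε u) / ENNReal.ofReal |Real.log ε|) (𝓝[>] 0) < ⊤ := by
  obtain ⟨hη, g, hgi, hg⟩ := h
  set C := (∫⁻ z, ‖η z‖ₑ) ^ 2 * gagliardo ps + (∫⁻ z, ‖g z‖ₑ) ^ 2 * gagliardo Th with hC
  have hCt : C < ⊤ := ENNReal.add_lt_top.2
    ⟨ENNReal.mul_lt_top (ENNReal.pow_lt_top hη.2) gag_ps,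
      ENNReal.mul_lt_top (ENNReal.pow_lt_top hgi.2) gag_Th⟩
  have hev : ∀ᶠ ε in 𝓝[>] (0 : ℝ),
      gagliardo (moll η ε u) / ENNReal.ofReal |Real.log ε| ≤ C * 4 := by
    have h1 : Ioc (0 : ℝ) (Real.exp (-1)) ∈ 𝓝[>] (0 : ℝ) := Ioc_mem_nhdsGT (Real.exp_pos _)
    filter_upwards [h1] with ε hε
    have hlog : Real.log ε ≤ -1 := by
      rw [Real.log_le_iff_le_exp hε.1]; exact hε.2
    have hpos : 0 < |Real.log ε| := abs_pos.2 (by linarith)
    rw [ENNReal.div_le_iff (by rw [ne_eq, ENNReal.ofReal_eq_zero, not_le]; exact hpos)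
      ENNReal.ofReal_ne_top]
    refine (gag_final hη hgi hg hε.1).trans ?_
    have h2 := pow_le_pow_left' (sum_bound hε.1 hε.2) 2
    refine (mul_le_mul_right h2 C).trans (le_of_eq ?_)
    rw [mul_assoc, ← ENNReal.ofReal_pow (by positivity), mul_pow, Real.sq_sqrt (abs_nonneg _),
      ENNReal.ofReal_mul (by norm_num)]
    norm_num
  exact lt_of_le_of_lt (limsup_le_of_le (by isBoundedDefault) hev)
    (ENNReal.mul_lt_top hCt (by norm_num))

/-- **Negated form of Q1 (case `N = d = 1`, `q = 2`).** -/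
theorem result : ∃ u : ℝ → ℝ, MemLp u 2 volume ∧
    (∀ η : ℝ → ℝ, InW11 η →
      limsup (fun ε => gagliardo (moll η ε u) / ENNReal.ofReal |Real.log ε|) (𝓝[>] 0) < ⊤) ∧
    besov u = ⊤ :=
  ⟨u, u_memLp, fun _ h => limsup_lt_top h, besov_top⟩

end Pool.Agent.Results.MP_498700_an.LogGrowth
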